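import Mathlib
import Pool.Agent.H25.Helly3

set_option autoImplicit false

namespace Pool.Agent.Results.MP_36375e_gt.Helly

open Set unitInterval

/-- No compact set of scatteredly continuous functions on the Baire space is homeomorphic to the
Helly space of non-decreasing self-maps of the unit interval. -/
theorem result : ¬ ∃ T : Set ((ℕ → ℕ) → ℝ), IsCompact T ∧
    (∀ g ∈ T, ∀ A : Set (ℕ → ℕ), A.Nonempty → ∃ a ∈ A, ContinuousWithinAt g A a) ∧
    Nonempty (T ≃ₜ {f : unitInterval → unitInterval | Monotone f}) := by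
  classical
  rintro ⟨T, -, hT, ⟨e'⟩⟩
  let e := e'.symm
  let ι : (ℝ → I) → (I → I) := fun f t =>
    if h : t ∈ range unitInterval.sigmoid then f h.choose else t
  have hι : Continuous ι := continuous_pi fun t => by
    by_cases h : t ∈ range unitInterval.sigmoid
    · simp only [ι, dif_pos h]; exact continuous_apply _
    · simp only [ι, dif_neg h]; exact continuous_const
  have hιs : ∀ f x, ι f (unitInterval.sigmoid x) = f x := by
    intro f x
    have h : unitInterval.sigmoid x ∈ range unitInterval.sigmoid := ⟨x, rfl⟩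
    simp only [ι, dif_pos h]
    rw [unitInterval.sigmoid_injective h.choose_spec]
  have hιn : ∀ f t, t ∉ range unitInterval.sigmoid → ι f t = t := fun f t h => dif_neg h
  have hm : ∀ f, Monotone f → Monotone (ι f) := by
    intro f hf s t hst
    by_cases hs : s ∈ range unitInterval.sigmoid
    · obtain ⟨x, rfl⟩ := hs
      by_cases ht : t ∈ range unitInterval.sigmoid
      · obtain ⟨y, rfl⟩ := ht
        rw [hιs, hιs]
        exact hf (unitInterval.sigmoid_le_iff.1 hst)
      · rw [hιn f t ht]
        rw [unitInterval.range_sigmoid] at ht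
        have : ¬ t < 1 := fun h => ht ⟨(unitInterval.sigmoid_pos x).trans_le hst, h⟩
        exact le_one'.trans (not_lt.1 this)
    · rw [hιn f s hs]
      rw [unitInterval.range_sigmoid] at hs
      by_cases h0 : 0 < s
      · have h1 : ¬ s < 1 := fun h => hs ⟨h0, h⟩
        have h2 : t ∉ range unitInterval.sigmoid := by
          rw [unitInterval.range_sigmoid]
          exact fun h => h1 (hst.trans_lt h.2)
        rw [hιn f t h2]
        exact hst
      · exact (not_lt.1 h0).trans nonneg'
  have hH : IsClosed {f : ℝ → I | Monotone f} := isClosed_monotone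
  have h1 : ∀ b : ℕ → ℕ, ∃ g : C(ℝ → I, ℝ), ∀ f (hf : Monotone f),
      g f = (e ⟨ι f, hm f hf⟩).1 b := by
    intro b
    obtain ⟨g, hg⟩ := ContinuousMap.exists_restrict_eq hH
      ⟨fun f => (e ⟨ι f.1, hm f.1 f.2⟩).1 b, (continuous_apply b).comp
        (continuous_subtype_val.comp (e.continuous.comp
          ((hι.comp continuous_subtype_val).subtype_mk _)))⟩
    exact ⟨g, fun f hf => DFunLike.congr_fun hg ⟨f, hf⟩⟩
  choose φ hφ using h1
  let _ := TopologicalSpace.pseudoMetrizableSpacePseudoMetric (ℕ → ℕ)
  obtain ⟨f, hf, A, hA, h2⟩ := Pool.Agent.H25.Helly3.main φ (by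
    intro f g hf hg hfg
    by_contra hh
    push Not at hh
    have h3 : e ⟨ι f, hm f hf⟩ = e ⟨ι g, hm g hg⟩ :=
      Subtype.ext (funext fun b => by rw [← hφ b f hf, ← hφ b g hg, hh])
    have h4 : ι f = ι g := congrArg Subtype.val (e.injective h3)
    refine hfg (funext fun t => ?_)
    rw [← hιs f, ← hιs g, h4])
  obtain ⟨a, ha, h3⟩ := hT _ (e ⟨ι f, hm f hf⟩).2 A hA
  refine h2 a ha ?_
  simp only [hφ _ f hf]
  exact h3

end Pool.Agent.Results.MP_36375e_gt.Helly
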